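import Mathlib

/-!
# Square-zero ideals: basic lemmas for the Bazzoni-Glaz problem
-/

set_option autoImplicit false

open TensorProduct

namespace Pool.Agent.Y28.BG

section basics

variable {R : Type} [CommRing R] (J : Ideal R)

/-- `J ⊗ F → F`. -/
noncomputable def jmap (F : Type) [AddCommGroup F] [Module R F] : J ⊗[R] F →ₗ[R] F :=
  (TensorProduct.lid R F).toLinearMap ∘ₗ (LinearMap.rTensor F J.subtype)

@[simp] theorem jmap_tmul (F : Type) [AddCommGroup F] [Module R F] (a : J) (x : F) :
    jmap J F (a ⊗ₜ x) = (a : R) • x := by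
  simp [jmap]

/-- `F → R/J ⊗ F`. -/
noncomputable def pmap (F : Type) [AddCommGroup F] [Module R F] : F →ₗ[R] (R ⧸ J) ⊗[R] F :=
  TensorProduct.mk R (R ⧸ J) F 1

@[simp] theorem pmap_apply (F : Type) [AddCommGroup F] [Module R F] (x : F) :
    pmap J F x = (1 : R ⧸ J) ⊗ₜ[R] x := rfl

theorem jmap_injective (F : Type) [AddCommGroup F] [Module R F] [Module.Flat R F] :
    Function.Injective (jmap J F) := by
  have h : Function.Injective (LinearMap.rTensor F J.subtype) :=
    Module.Flat.rTensor_preserves_injective_linearMap _ (Submodule.subtype_injective J)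
  exact (TensorProduct.lid R F).injective.comp h

theorem pmap_surjective (F : Type) [AddCommGroup F] [Module R F] :
    Function.Surjective (pmap J F) := by
  intro z
  induction z using TensorProduct.induction_on with
  | zero => exact ⟨0, map_zero _⟩
  | tmul d x =>
    obtain ⟨r, rfl⟩ := Ideal.Quotient.mk_surjective d
    refine ⟨r • x, ?_⟩
    rw [pmap_apply, ← TensorProduct.smul_tmul]
    congr 1
    simp [Algebra.smul_def]
  | add a b ha hb =>
    obtain ⟨x, hx⟩ := ha
    obtain ⟨y, hy⟩ := hb
    exact ⟨x + y, by rw [map_add, hx, hy]⟩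

theorem exact_jmap_pmap (F : Type) [AddCommGroup F] [Module R F] :
    Function.Exact (jmap J F) (pmap J F) := by
  have h1 : Function.Exact (LinearMap.rTensor F J.subtype)
      (LinearMap.rTensor F (Submodule.mkQ J : R →ₗ[R] R ⧸ J)) := by
    apply rTensor_exact
    · intro x
      rw [← LinearMap.mem_ker, Submodule.ker_mkQ]
      simp
    · exact Submodule.mkQ_surjective _
  intro x
  have h2 := h1 ((TensorProduct.lid R F).symm x)
  have h3 : (LinearMap.rTensor F (Submodule.mkQ J : R →ₗ[R] R ⧸ J))
      ((TensorProduct.lid R F).symm x) = pmap J F x := by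
    rw [TensorProduct.lid_symm_apply, LinearMap.rTensor_tmul, pmap_apply]
    rfl
  rw [h3] at h2
  rw [h2]
  constructor
  · rintro ⟨y, hy⟩
    refine ⟨y, ?_⟩
    simp only [jmap, LinearMap.comp_apply]
    rw [hy]
    simp
  · rintro ⟨y, hy⟩
    refine ⟨y, ?_⟩
    rw [← hy]
    simp [jmap]

theorem jmap_natural {F F' : Type} [AddCommGroup F] [Module R F] [AddCommGroup F'] [Module R F']
    (f : F →ₗ[R] F') (t : J ⊗[R] F) :
    jmap J F' (LinearMap.lTensor J f t) = f (jmap J F t) := by
  induction t using TensorProduct.induction_on with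
  | zero => simp
  | tmul a x => simp
  | add a b ha hb => simp only [map_add, ha, hb]

theorem pmap_natural {F F' : Type} [AddCommGroup F] [Module R F] [AddCommGroup F'] [Module R F']
    (f : F →ₗ[R] F') (x : F) :
    pmap J F' (f x) = LinearMap.lTensor (R ⧸ J) f (pmap J F x) := by
  simp

/-- Modules killed by `J`. -/
def Killed (A : Type) [AddCommGroup A] [Module R A] : Prop := ∀ j ∈ J, ∀ a : A, j • a = 0

theorem pmap_injective_of_killed {A : Type} [AddCommGroup A] [Module R A] (hA : Killed J A) :
    Function.Injective (pmap J A) := by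
  rw [injective_iff_map_eq_zero]
  intro x hx
  obtain ⟨t, rfl⟩ := (exact_jmap_pmap J A x).1 hx
  induction t using TensorProduct.induction_on with
  | zero => simp
  | tmul a x => simp [hA a.1 a.2 x]
  | add a b ha hb =>
    have key : ∀ t : J ⊗[R] A, jmap J A t = 0 := by
      intro t
      induction t using TensorProduct.induction_on with
      | zero => simp
      | tmul a x => simp [hA a.1 a.2 x]
      | add a b ha hb => simp only [map_add, ha, hb, add_zero]
    exact key _

theorem killed_tensor {A : Type} [AddCommGroup A] [Module R A] (hA : Killed J A)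
    (F : Type) [AddCommGroup F] [Module R F] : Killed J (A ⊗[R] F) := by
  intro j hj t
  induction t using TensorProduct.induction_on with
  | zero => simp
  | tmul a x => rw [TensorProduct.smul_tmul', hA j hj a, zero_tmul]
  | add a b ha hb => rw [smul_add, ha, hb, add_zero]

theorem killed_of_injective {A' A : Type} [AddCommGroup A'] [Module R A'] [AddCommGroup A]
    [Module R A] (f : A' →ₗ[R] A) (hf : Function.Injective f) (hA : Killed J A) :
    Killed J A' := by
  intro j hj a
  apply hf
  rw [map_smul, hA j hj, map_zero]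

theorem killed_J (h2 : ∀ a ∈ J, ∀ b ∈ J, a * b = 0) : Killed J J := by
  intro j hj a
  apply Subtype.ext
  simp [h2 j hj a.1 a.2]

/-- Exactness of `G ⊗ -` on modules killed by `J`. -/
def JF (G : Type) [AddCommGroup G] [Module R G] : Prop :=
  ∀ (A' A : Type) [AddCommGroup A'] [AddCommGroup A] [Module R A'] [Module R A]
    (f : A' →ₗ[R] A), Killed J A → Function.Injective f →
      Function.Injective (LinearMap.lTensor G f)

theorem JF_of_flat (G : Type) [AddCommGroup G] [Module R G] [Module (R ⧸ J) G]
    [IsScalarTower R (R ⧸ J) G] [Module.Flat (R ⧸ J) G] : JF J G := by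
  intro A' A _ _ _ _ f hA hf
  have hA' : Killed J A' := killed_of_injective J f hf hA
  have h1 : Function.Injective (LinearMap.baseChange (R ⧸ J) f) := by
    intro x y hxy
    obtain ⟨a, rfl⟩ := pmap_surjective J A' x
    obtain ⟨b, rfl⟩ := pmap_surjective J A' y
    have h3 : pmap J A (f a) = pmap J A (f b) := by
      simpa using hxy
    rw [hf (pmap_injective_of_killed J hA h3)]
  have h2 : Function.Injective (LinearMap.lTensor G (LinearMap.baseChange (R ⧸ J) f)) :=
    Module.Flat.lTensor_preserves_injective_linearMap _ h1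
  let e' := TensorProduct.AlgebraTensorModule.cancelBaseChange R (R ⧸ J) (R ⧸ J) G A'
  let e := TensorProduct.AlgebraTensorModule.cancelBaseChange R (R ⧸ J) (R ⧸ J) G A
  have h3 : ∀ t : G ⊗[R ⧸ J] ((R ⧸ J) ⊗[R] A'),
      e (LinearMap.lTensor G (LinearMap.baseChange (R ⧸ J) f) t) =
        LinearMap.lTensor G f (e' t) := by
    intro t
    induction t using TensorProduct.induction_on with
    | zero => simp
    | add a b ha hb => simp only [map_add, ha, hb]
    | tmul g s =>
      induction s using TensorProduct.induction_on with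
      | zero => simp
      | add a b ha hb => simp only [tmul_add, map_add, ha, hb]
      | tmul d x => simp [e, e']
  intro x y hxy
  obtain ⟨u, rfl⟩ := e'.surjective x
  obtain ⟨v, rfl⟩ := e'.surjective y
  rw [← h3, ← h3] at hxy
  rw [h2 (e.injective hxy)]

end basics

section orth

variable {R : Type} [CommRing R] {G1 G0 : Type} [AddCommGroup G1] [Module R G1]
  [AddCommGroup G0] [Module R G0]

/-- `ι ⊗ A` is bijective. -/
def Orth (i : G1 →ₗ[R] G0) (A : Type) [AddCommGroup A] [Module R A] : Prop :=
  Function.Bijective (LinearMap.rTensor A i)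

theorem rl (i : G1 →ₗ[R] G0) {A B : Type} [AddCommGroup A] [Module R A] [AddCommGroup B]
    [Module R B] (f : A →ₗ[R] B) (t : G1 ⊗[R] A) :
    LinearMap.rTensor B i (LinearMap.lTensor G1 f t) =
      LinearMap.lTensor G0 f (LinearMap.rTensor A i t) := by
  rw [← LinearMap.comp_apply, ← LinearMap.comp_apply, LinearMap.rTensor_comp_lTensor,
    LinearMap.lTensor_comp_rTensor]

theorem orth_coker (i : G1 →ₗ[R] G0) {A B Q : Type} [AddCommGroup A] [Module R A]
    [AddCommGroup B] [Module R B] [AddCommGroup Q] [Module R Q] (f : A →ₗ[R] B) (p : B →ₗ[R] Q)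
    (hfp : Function.Exact f p) (hp : Function.Surjective p) (hA : Orth i A) (hB : Orth i B) :
    Orth i Q := by
  constructor
  · rw [injective_iff_map_eq_zero]
    intro q hq
    obtain ⟨b, rfl⟩ := LinearMap.lTensor_surjective G1 hp q
    rw [rl] at hq
    obtain ⟨a, ha⟩ := ((lTensor_exact G0 hfp hp) _).1 hq
    obtain ⟨a1, rfl⟩ := hA.2 a
    rw [← rl] at ha
    have := hB.1 ha
    rw [← this]
    exact ((lTensor_exact G1 hfp hp) _).2 ⟨_, rfl⟩
  · intro q
    obtain ⟨b, rfl⟩ := LinearMap.lTensor_surjective G0 hp q
    obtain ⟨b1, rfl⟩ := hB.2 b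
    exact ⟨_, rl i p b1⟩

theorem JF_exact (J : Ideal R) (hG : JF J G1) {K A B : Type} [AddCommGroup K] [Module R K]
    [AddCommGroup A] [Module R A] [AddCommGroup B] [Module R B] (k : K →ₗ[R] A) (g : A →ₗ[R] B)
    (hkg : Function.Exact k g) (kB : Killed J B) :
    Function.Exact (LinearMap.lTensor G1 k) (LinearMap.lTensor G1 g) := by
  have h1 : Function.Exact k g.rangeRestrict := by
    intro x
    rw [← hkg x]
    constructor
    · intro h
      have := congrArg Subtype.val h
      simpa using this
    · intro h
      exact Subtype.ext (by simpa using h)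
  have h2 := lTensor_exact G1 h1 (LinearMap.surjective_rangeRestrict g)
  have h3 : Function.Injective (LinearMap.lTensor G1 (LinearMap.range g).subtype) :=
    hG _ _ _ kB (Submodule.subtype_injective _)
  intro x
  rw [← h2 x]
  have h4 : LinearMap.lTensor G1 g x =
      LinearMap.lTensor G1 (LinearMap.range g).subtype (LinearMap.lTensor G1 g.rangeRestrict x) := by
    rw [← LinearMap.comp_apply, ← LinearMap.lTensor_comp]
    rfl
  rw [h4]
  constructor
  · intro h
    exact h3 (by rw [h, map_zero])
  · intro h
    rw [h, map_zero]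

theorem orth_ker (J : Ideal R) (h1 : JF J G1) (h0 : JF J G0) (i : G1 →ₗ[R] G0)
    {K A B : Type} [AddCommGroup K] [Module R K] [AddCommGroup A] [Module R A]
    [AddCommGroup B] [Module R B] (k : K →ₗ[R] A) (g : A →ₗ[R] B)
    (hk : Function.Injective k) (hkg : Function.Exact k g) (kA : Killed J A) (kB : Killed J B)
    (hA : Orth i A) (hB : Orth i B) : Orth i K := by
  have k1 := h1 _ _ k kA hk
  have k0 := h0 _ _ k kA hk
  constructor
  · rw [injective_iff_map_eq_zero]
    intro x hx
    apply k1
    apply hA.1
    rw [rl, hx]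
    simp
  · intro z
    obtain ⟨w, hw⟩ := hA.2 (LinearMap.lTensor G0 k z)
    have h2 : LinearMap.lTensor G1 g w = 0 := by
      apply hB.1
      rw [rl, hw, map_zero]
      exact ((JF_exact J h0 k g hkg kB) _).2 ⟨z, rfl⟩
    obtain ⟨w', rfl⟩ := ((JF_exact J h1 k g hkg kB) _).1 h2
    refine ⟨w', k0 ?_⟩
    rw [← rl, hw]

theorem orth_equiv (i : G1 →ₗ[R] G0) {A B : Type} [AddCommGroup A] [Module R A]
    [AddCommGroup B] [Module R B] (e : A ≃ₗ[R] B) (hA : Orth i A) : Orth i B := by
  have h : ∀ t, LinearMap.rTensor B i t =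
      LinearMap.lTensor G0 e.toLinearMap (LinearMap.rTensor A i
        (LinearMap.lTensor G1 e.symm.toLinearMap t)) := by
    intro t
    rw [← rl, ← LinearMap.comp_apply (LinearMap.lTensor G1 _), ← LinearMap.lTensor_comp]
    simp
  have e1 : Function.Bijective (LinearMap.lTensor G0 e.toLinearMap) :=
    (LinearEquiv.lTensor G0 e).bijective
  have e2 : Function.Bijective (LinearMap.lTensor G1 e.symm.toLinearMap) :=
    (LinearEquiv.lTensor G1 e.symm).bijective
  have : (fun t => LinearMap.rTensor B i t) = (LinearMap.lTensor G0 e.toLinearMap) ∘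
      (LinearMap.rTensor A i) ∘ (LinearMap.lTensor G1 e.symm.toLinearMap) := by
    funext t
    exact h t
  unfold Orth
  change Function.Bijective (fun t => LinearMap.rTensor B i t)
  rw [this]
  exact e1.comp (hA.comp e2)

theorem orth_tensor (i : G1 →ₗ[R] G0) {A : Type} [AddCommGroup A] [Module R A] (hA : Orth i A)
    (F : Type) [AddCommGroup F] [Module R F] : Orth i (A ⊗[R] F) := by
  have h : ∀ t : (G1 ⊗[R] A) ⊗[R] F,
      LinearMap.rTensor (A ⊗[R] F) i (TensorProduct.assoc R G1 A F t) =
        TensorProduct.assoc R G0 A F (LinearMap.rTensor F (LinearMap.rTensor A i) t) := by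
    intro t
    induction t using TensorProduct.induction_on with
    | zero => simp
    | add a b ha hb => simp only [map_add, ha, hb]
    | tmul s x =>
      induction s using TensorProduct.induction_on with
      | zero => simp
      | add a b ha hb => simp only [add_tmul, map_add, ha, hb]
      | tmul g a => simp
  have h1 : Function.Bijective (LinearMap.rTensor F (LinearMap.rTensor A i)) :=
    (LinearEquiv.rTensor F (LinearEquiv.ofBijective _ hA)).bijective
  constructor
  · intro x y hxy
    obtain ⟨u, rfl⟩ := (TensorProduct.assoc R G1 A F).surjective x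
    obtain ⟨v, rfl⟩ := (TensorProduct.assoc R G1 A F).surjective y
    rw [h, h] at hxy
    rw [h1.1 ((TensorProduct.assoc R G0 A F).injective hxy)]
  · intro x
    obtain ⟨u, rfl⟩ := (TensorProduct.assoc R G0 A F).surjective x
    obtain ⟨v, rfl⟩ := h1.2 u
    exact ⟨_, h v⟩

end orth

end Pool.Agent.Y28.BG
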