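import Mathlib

/-!
# Statements for the square-zero case of the Bazzoni-Glaz problem
-/

set_option autoImplicit false

open CategoryTheory

namespace Pool.Agent.Y28.BG

/-- The Gaussian property: the content ideal is multiplicative. -/
def Gauss (R : Type) [CommRing R] : Prop :=
  ∀ f g : Polynomial R,
    Ideal.span (Set.range (f * g).coeff) =
      Ideal.span (Set.range f.coeff) * Ideal.span (Set.range g.coeff)

/-- GV: a local Gaussian ring modulo its nilradical is a valuation domain. -/
def S_GV : Prop := ∀ (R : Type) [CommRing R] [IsLocalRing R], Gauss R →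
  (nilradical R).IsPrime ∧
    ∀ a b : R, (∃ c, a * c - b ∈ nilradical R) ∨ (∃ c, b * c - a ∈ nilradical R)

/-- F4: over a valuation domain, `V ⊗ᴸ V = 0` implies `V = 0`. -/
def S_F4 : Prop := ∀ (D : Type) [CommRing D] [IsDomain D] [ValuationRing D]
  (G : Type) [AddCommGroup G] [Module D G] [Module.Flat D G] (B : Submodule D G),
  Function.Bijective (LinearMap.rTensor (G ⧸ B) B.subtype) → B = ⊤

/-- TOR: vanishing of `Tor` gives exactness of the tensored resolution. -/
def S_TOR : Prop := ∀ (R : Type) [CommRing R] (A X : ModuleCat.{0} R) (P : ProjectiveResolution X)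
  (n : ℕ), Limits.IsZero (((Tor (ModuleCat.{0} R) (n + 1)).obj A).obj X) →
  Function.Exact (LinearMap.lTensor A (P.complex.d (n + 2) (n + 1)).hom)
    (LinearMap.lTensor A (P.complex.d (n + 1) n).hom)

/-- RES: elementary form of a projective resolution of a module. -/
def S_RES : Prop := ∀ (R : Type) [CommRing R] (X : Type) [AddCommGroup X] [Module R X]
  (P : ProjectiveResolution (ModuleCat.of R X)),
  (∀ n, Module.Flat R (P.complex.X n)) ∧
  (∀ n, Function.Exact (P.complex.d (n + 2) (n + 1)).hom (P.complex.d (n + 1) n).hom) ∧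
  ∃ e : P.complex.X 0 →ₗ[R] X, Function.Surjective e ∧
    Function.Exact (P.complex.d 1 0).hom e

end Pool.Agent.Y28.BG
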