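import Pool.Agent.Y28.BG.A
import Pool.Agent.Y28.BG.Stm

/-!
# The key step: vanishing of homology is inherited downwards
-/

set_option autoImplicit false

open TensorProduct

namespace Pool.Agent.Y28.BG

section pure

variable {R : Type} [CommRing R] (J : Ideal R)

theorem JF_rTensor {G : Type} [AddCommGroup G] [Module R G] (hG : JF J G)
    {A' A : Type} [AddCommGroup A'] [AddCommGroup A] [Module R A'] [Module R A]
    (f : A' →ₗ[R] A) (hA : Killed J A) (hf : Function.Injective f) :
    Function.Injective (LinearMap.rTensor G f) := by
  have h := hG A' A f hA hf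
  have h1 : ∀ t : A' ⊗[R] G, TensorProduct.comm R A G (LinearMap.rTensor G f t) =
      LinearMap.lTensor G f (TensorProduct.comm R A' G t) := by
    intro t
    induction t using TensorProduct.induction_on with
    | zero => simp
    | add a b ha hb => simp only [map_add, ha, hb]
    | tmul g s => simp
  intro x y hxy
  have := congrArg (TensorProduct.comm R A G) hxy
  rw [h1, h1] at this
  exact (TensorProduct.comm R A' G).injective (h this)

theorem pure_aux {Z C B A L : Type} [AddCommGroup Z] [Module R Z] [AddCommGroup C] [Module R C]
    [AddCommGroup B] [Module R B] [AddCommGroup A] [Module R A] [AddCommGroup L] [Module R L]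
    (hL : JF J L) (kL : Killed J L) (p : L →ₗ[R] A) (hp : Function.Surjective p)
    (k : Z →ₗ[R] C) (g : C →ₗ[R] B) (hk : Function.Injective k) (hkg : Function.Exact k g)
    (hg : Function.Surjective g) (kC : Killed J C) (hB : JF J B) :
    Function.Injective (LinearMap.rTensor A k) := by
  have hl : Function.Injective (LinearMap.ker p).subtype := Submodule.subtype_injective _
  have hlp : Function.Exact (LinearMap.ker p).subtype p := by
    intro x
    simp
  rw [injective_iff_map_eq_zero]
  intro x hx
  obtain ⟨x', rfl⟩ := LinearMap.lTensor_surjective Z hp x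
  have e1 : LinearMap.lTensor C p (LinearMap.rTensor L k x') = 0 := by
    rw [← hx, ← LinearMap.comp_apply, ← LinearMap.comp_apply, LinearMap.rTensor_comp_lTensor,
      LinearMap.lTensor_comp_rTensor]
  obtain ⟨z, hz⟩ := ((lTensor_exact C hlp hp) _).1 e1
  have e2 : LinearMap.rTensor (LinearMap.ker p) g z = 0 := by
    apply hB _ _ (LinearMap.ker p).subtype kL hl
    rw [map_zero]
    have : LinearMap.lTensor B (LinearMap.ker p).subtype
        (LinearMap.rTensor (LinearMap.ker p) g z) =
        LinearMap.rTensor L g (LinearMap.lTensor C (LinearMap.ker p).subtype z) := by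
      rw [← LinearMap.comp_apply, ← LinearMap.comp_apply, LinearMap.rTensor_comp_lTensor,
        LinearMap.lTensor_comp_rTensor]
    rw [this, hz, ← LinearMap.comp_apply, ← LinearMap.rTensor_comp]
    have h0 : g ∘ₗ k = 0 := by
      ext a
      exact hkg.apply_apply_eq_zero a
    rw [h0, LinearMap.rTensor_zero, LinearMap.zero_apply]
  obtain ⟨z', rfl⟩ := ((rTensor_exact (LinearMap.ker p) hkg hg) _).1 e2
  have e3 : LinearMap.rTensor L k (LinearMap.lTensor Z (LinearMap.ker p).subtype z') =
      LinearMap.rTensor L k x' := by
    rw [← hz, ← LinearMap.comp_apply, ← LinearMap.comp_apply, LinearMap.rTensor_comp_lTensor,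
      LinearMap.lTensor_comp_rTensor]
  have e4 := JF_rTensor J hL k kC hk e3
  rw [← e4]
  exact ((lTensor_exact Z hlp hp) _).2 ⟨z', rfl⟩

theorem exists_cover {A : Type} [AddCommGroup A] [Module R A] (kA : Killed J A) :
    ∃ p : (A →₀ (R ⧸ J)) →ₗ[R] A, Function.Surjective p := by
  have hlin : ∀ a : A, J ≤ LinearMap.ker (LinearMap.toSpanSingleton R A a) := by
    intro a j hj
    rw [LinearMap.mem_ker, LinearMap.toSpanSingleton_apply]
    exact kA j hj a
  refine ⟨Finsupp.lsum R (fun a => Submodule.liftQ J
    (LinearMap.toSpanSingleton R A a) (hlin a)), fun a => ⟨Finsupp.single a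
      (Submodule.Quotient.mk 1), ?_⟩⟩
  rw [Finsupp.lsum_single]
  change (Submodule.liftQ J (LinearMap.toSpanSingleton R A a) (hlin a))
    (Submodule.Quotient.mk 1) = a
  rw [Submodule.liftQ_apply, LinearMap.toSpanSingleton_apply, one_smul]

theorem killed_quot (G : Type) [AddCommGroup G] [Module R G] [Module (R ⧸ J) G]
    [IsScalarTower R (R ⧸ J) G] : Killed J G := by
  intro j hj g
  have : j • g = (Ideal.Quotient.mk J j) • g := by
    rw [← Ideal.Quotient.algebraMap_eq, algebraMap_smul]
  rw [this, Ideal.Quotient.eq_zero_iff_mem.2 hj, zero_smul]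

theorem pure_of_JF {Z C B A : Type} [AddCommGroup Z] [Module R Z] [AddCommGroup C] [Module R C]
    [AddCommGroup B] [Module R B] [AddCommGroup A] [Module R A]
    (k : Z →ₗ[R] C) (g : C →ₗ[R] B) (hk : Function.Injective k) (hkg : Function.Exact k g)
    (hg : Function.Surjective g) (kC : Killed J C) (hB : JF J B) (kA : Killed J A) :
    Function.Injective (LinearMap.rTensor A k) := by
  obtain ⟨p, hp⟩ := exists_cover J kA
  exact pure_aux J (JF_of_flat J (A →₀ (R ⧸ J))) (killed_quot J _) p hp k g hk hkg hg kC hB

theorem pmap_rTensor_injective (h2 : ∀ a ∈ J, ∀ b ∈ J, a * b = 0) (F : Type) [AddCommGroup F]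
    [Module R F] : Function.Injective (LinearMap.rTensor J (pmap J F)) := by
  rw [injective_iff_map_eq_zero]
  intro x hx
  obtain ⟨t, rfl⟩ := ((rTensor_exact J (exact_jmap_pmap J F) (pmap_surjective J F)) _).1 hx
  induction t using TensorProduct.induction_on with
  | zero => simp
  | add a b ha hb =>
    have key : ∀ t : (J ⊗[R] F) ⊗[R] J, LinearMap.rTensor J (jmap J F) t = 0 := by
      intro t
      induction t using TensorProduct.induction_on with
      | zero => simp
      | add a b ha hb => simp only [map_add, ha, hb, add_zero]
      | tmul s j =>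
        induction s using TensorProduct.induction_on with
        | zero => simp
        | add a b ha hb => simp only [add_tmul, map_add, ha, hb, add_zero]
        | tmul a x =>
          rw [LinearMap.rTensor_tmul, jmap_tmul, TensorProduct.smul_tmul]
          have : (a : R) • j = 0 := Subtype.ext (by simp [h2 a.1 a.2 j.1 j.2])
          rw [this, tmul_zero]
    exact key _
  | tmul s j =>
    induction s using TensorProduct.induction_on with
    | zero => simp
    | add a b ha hb =>
      have key : ∀ t : (J ⊗[R] F), LinearMap.rTensor J (jmap J F) (t ⊗ₜ j) = 0 := by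
        intro t
        induction t using TensorProduct.induction_on with
        | zero => simp
        | add a b ha hb => simp only [add_tmul, map_add, ha, hb, add_zero]
        | tmul a x =>
          rw [LinearMap.rTensor_tmul, jmap_tmul, TensorProduct.smul_tmul]
          have : (a : R) • j = 0 := Subtype.ext (by simp [h2 a.1 a.2 j.1 j.2])
          rw [this, tmul_zero]
      exact key _
    | tmul a x =>
      rw [LinearMap.rTensor_tmul, jmap_tmul, TensorProduct.smul_tmul]
      have : (a : R) • j = 0 := Subtype.ext (by simp [h2 a.1 a.2 j.1 j.2])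
      rw [this, tmul_zero]

end pure

end Pool.Agent.Y28.BG
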