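import Pool.Agent.Y28.BG.Key

/-!
# The key step: vanishing of homology is inherited downwards
-/

set_option autoImplicit false

open TensorProduct

namespace Pool.Agent.Y28.BG

section

variable {R : Type} [CommRing R]

theorem rT_comp {A M N P : Type} [AddCommGroup A] [Module R A] [AddCommGroup M] [Module R M]
    [AddCommGroup N] [Module R N] [AddCommGroup P] [Module R P] (f : M →ₗ[R] N) (g : N →ₗ[R] P)
    (t : M ⊗[R] A) :
    LinearMap.rTensor A g (LinearMap.rTensor A f t) = LinearMap.rTensor A (g ∘ₗ f) t := by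
  rw [LinearMap.rTensor_comp, LinearMap.comp_apply]

theorem step1_aux {A Z B C1 C0 F3 F2 F1 F0 : Type}
    [AddCommGroup A] [Module R A] [AddCommGroup Z] [Module R Z] [AddCommGroup B] [Module R B]
    [AddCommGroup C1] [Module R C1] [AddCommGroup C0] [Module R C0]
    [AddCommGroup F3] [Module R F3] [AddCommGroup F2] [Module R F2]
    [AddCommGroup F1] [Module R F1] [AddCommGroup F0] [Module R F0]
    (d2 : F3 →ₗ[R] F2) (d1 : F2 →ₗ[R] F1) (d0 : F1 →ₗ[R] F0)
    (zc : Z →ₗ[R] C1) (i : B →ₗ[R] Z) (q : F2 →ₗ[R] B) (p1 : F1 →ₗ[R] C1) (p0 : F0 →ₗ[R] C0)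
    (c0 : C1 →ₗ[R] C0)
    (hzc : Function.Injective (LinearMap.rTensor A zc))
    (hp1 : Function.Injective (LinearMap.rTensor A p1)) (hp1s : Function.Surjective p1)
    (hp0 : Function.Injective (LinearMap.rTensor A p0))
    (hq : Function.Surjective q) (hqd : q ∘ₗ d2 = 0)
    (hc1 : zc ∘ₗ i ∘ₗ q = p1 ∘ₗ d1) (hc0 : c0 ∘ₗ p1 = p0 ∘ₗ d0) (hcz : c0 ∘ₗ zc = 0)
    (HN1 : Function.Exact (LinearMap.rTensor A d1) (LinearMap.rTensor A d0))
    (HN2 : Function.Exact (LinearMap.rTensor A d2) (LinearMap.rTensor A d1)) :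
    Function.Bijective (LinearMap.rTensor A i) := by
  constructor
  · rw [injective_iff_map_eq_zero]
    intro b hb
    obtain ⟨s, rfl⟩ := LinearMap.rTensor_surjective A hq b
    have e1 : LinearMap.rTensor A p1 (LinearMap.rTensor A d1 s) = 0 := by
      rw [rT_comp, ← hc1, ← rT_comp, ← rT_comp, hb, map_zero]
    have e2 : LinearMap.rTensor A d1 s = 0 := hp1 (by rw [e1, map_zero])
    obtain ⟨u, rfl⟩ := (HN2 _).1 e2
    rw [rT_comp, hqd, LinearMap.rTensor_zero, LinearMap.zero_apply]
  · intro z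
    obtain ⟨t, ht⟩ := LinearMap.rTensor_surjective A hp1s (LinearMap.rTensor A zc z)
    have e1 : LinearMap.rTensor A p0 (LinearMap.rTensor A d0 t) = 0 := by
      rw [rT_comp, ← hc0, ← rT_comp, ht, rT_comp, hcz, LinearMap.rTensor_zero,
        LinearMap.zero_apply]
    have e2 : LinearMap.rTensor A d0 t = 0 := hp0 (by rw [e1, map_zero])
    obtain ⟨s, rfl⟩ := (HN1 _).1 e2
    refine ⟨LinearMap.rTensor A q s, hzc ?_⟩
    rw [← ht, rT_comp, rT_comp, rT_comp, LinearMap.comp_assoc, hc1]

end

section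

variable {R : Type} [CommRing R] (J : Ideal R)

instance compat_one {M N : Type} [AddCommGroup M] [Module R M] [Module (R ⧸ J) M]
    [IsScalarTower R (R ⧸ J) M] [AddCommGroup N] [Module R N] [Module (R ⧸ J) N]
    [IsScalarTower R (R ⧸ J) N] : TensorProduct.CompatibleSMul R (R ⧸ J) M N where
  smul_tmul := by
    intro d m n
    obtain ⟨r, rfl⟩ := Ideal.Quotient.mk_surjective d
    have e1 : (Ideal.Quotient.mk J r) • m = r • m := by
      rw [← Ideal.Quotient.algebraMap_eq, algebraMap_smul]
    have e2 : (Ideal.Quotient.mk J r) • n = r • n := by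
      rw [← Ideal.Quotient.algebraMap_eq, algebraMap_smul]
    rw [e1, e2, TensorProduct.smul_tmul]

/-- Passing from tensor products over `R` to tensor products over `R ⧸ J`. -/
theorem bij_transfer {G V : Type} [AddCommGroup G] [Module R G] [Module (R ⧸ J) G]
    [IsScalarTower R (R ⧸ J) G] [AddCommGroup V] [Module R V] [Module (R ⧸ J) V]
    [IsScalarTower R (R ⧸ J) V] (B : Submodule (R ⧸ J) G)
    (h : Function.Bijective (LinearMap.rTensor V (B.subtype.restrictScalars R))) :
    Function.Bijective (LinearMap.rTensor V B.subtype) := by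
  let e1 := TensorProduct.equivOfCompatibleSMul R (R ⧸ J) R B V
  let e0 := TensorProduct.equivOfCompatibleSMul R (R ⧸ J) R G V
  have key : ∀ t : B ⊗[R ⧸ J] V, e0 (LinearMap.rTensor V B.subtype t) =
      LinearMap.rTensor V (B.subtype.restrictScalars R) (e1 t) := by
    intro t
    induction t using TensorProduct.induction_on with
    | zero => simp
    | add a b ha hb => simp only [map_add, ha, hb]
    | tmul g s => rfl
  constructor
  · intro x y hxy
    have := congrArg e0 hxy
    rw [key, key] at this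
    exact e1.injective (h.1 this)
  · intro x
    obtain ⟨u, hu⟩ := h.2 (e0 x)
    obtain ⟨v, rfl⟩ := e1.surjective u
    rw [← key] at hu
    exact ⟨v, e0.injective hu⟩

end

end Pool.Agent.Y28.BG
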