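import Pool.Agent.Y28.BG.Key2

/-!
# The key step: vanishing of homology is inherited downwards
-/

set_option autoImplicit false

open TensorProduct

namespace Pool.Agent.Y28.BG

section

variable {R : Type} [CommRing R] (J : Ideal R)

theorem flat_sub [IsDomain (R ⧸ J)] [ValuationRing (R ⧸ J)] {C : Type} [AddCommGroup C]
    [Module (R ⧸ J) C] [Module.Flat (R ⧸ J) C] (Z : Submodule (R ⧸ J) C) :
    Module.Flat (R ⧸ J) Z := by
  rw [Module.Flat.flat_iff_torsion_eq_bot_of_isBezout, ← Submodule.isTorsionFree_iff_torsion_eq_bot]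
  have : Module.IsTorsionFree (R ⧸ J) C := inferInstance
  exact Function.Injective.moduleIsTorsionFree (M := Z) (N := C) Z.subtype
    (Submodule.subtype_injective Z) (fun r m => rfl)

theorem key_aux (hF4 : S_F4) (h2 : ∀ a ∈ J, ∀ b ∈ J, a * b = 0)
    [IsDomain (R ⧸ J)] [ValuationRing (R ⧸ J)] {F3 F2 F1 F0 E G K : Type}
    [AddCommGroup F3] [Module R F3] [AddCommGroup F2] [Module R F2]
    [AddCommGroup F1] [Module R F1] [AddCommGroup F0] [Module R F0]
    [AddCommGroup E] [Module R E] [Module.Flat R F1] [Module.Flat R F0] [Module.Flat R E]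
    [AddCommGroup G] [Module R G] [Module (R ⧸ J) G] [IsScalarTower R (R ⧸ J) G]
    [AddCommGroup K] [Module R K]
    (d2 : F3 →ₗ[R] F2) (d1 : F2 →ₗ[R] F1) (d0 : F1 →ₗ[R] F0) (e : F0 →ₗ[R] E)
    (h21 : d1 ∘ₗ d2 = 0) (h10 : Function.Exact d1 d0)
    (hcond : ∀ t : J ⊗[R] F0, LinearMap.lTensor J e t = 0 → ∃ x, d0 x = jmap J F0 t)
    (he0 : e ∘ₗ d0 = 0)
    (HN1 : Function.Exact (LinearMap.lTensor J d1) (LinearMap.lTensor J d0))
    (HN2 : Function.Exact (LinearMap.lTensor J d2) (LinearMap.lTensor J d1))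
    (z : G →ₗ[R ⧸ J] (R ⧸ J) ⊗[R] F1) (hz : Function.Injective z)
    (hzk : Function.Exact z (LinearMap.baseChange (R ⧸ J) d0))
    (k : K →ₗ[R] J ⊗[R] F0) (hk : Function.Injective k)
    (hke : Function.Exact k (LinearMap.lTensor J e)) :
    Function.Exact (LinearMap.lTensor (R ⧸ J) d1) (LinearMap.lTensor (R ⧸ J) d0) := by
  let c0 : (R ⧸ J) ⊗[R] F1 →ₗ[R ⧸ J] (R ⧸ J) ⊗[R] F0 := LinearMap.baseChange (R ⧸ J) d0
  let c1 : (R ⧸ J) ⊗[R] F2 →ₗ[R ⧸ J] (R ⧸ J) ⊗[R] F1 := LinearMap.baseChange (R ⧸ J) d1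
  let B : Submodule (R ⧸ J) G := (LinearMap.range c1).comap z
  have h10' : d0 ∘ₗ d1 = 0 := by
    ext x
    exact h10.apply_apply_eq_zero x
  have hc1 : ∀ x : F2, c1 (pmap J F2 x) = pmap J F1 (d1 x) := by
    intro x; simp [c1]
  have hc0 : ∀ x : F1, c0 (pmap J F1 x) = pmap J F0 (d0 x) := by
    intro x; simp [c0]
  have hc10 : ∀ x : F2, c0 (c1 (pmap J F2 x)) = 0 := by
    intro x
    rw [hc1, hc0, h10.apply_apply_eq_zero, map_zero]
  have hq0 : ∀ x : F2, ∃ g : G, z g = c1 (pmap J F2 x) := fun x => (hzk _).1 (hc10 x)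
  choose q0 hq0 using hq0
  let q : F2 →ₗ[R] B :=
    { toFun := fun x => ⟨q0 x, ⟨pmap J F2 x, (hq0 x).symm⟩⟩
      map_add' := by
        intro x y
        apply Subtype.ext
        apply hz
        change z (q0 (x + y)) = z (q0 x + q0 y)
        rw [map_add, hq0, hq0, hq0, map_add, map_add]
      map_smul' := by
        intro r x
        apply Subtype.ext
        apply hz
        change z (q0 (r • x)) = (z.restrictScalars R) (r • q0 x)
        rw [map_smul, hq0, map_smul]
        change (c1.restrictScalars R) (r • pmap J F2 x) = r • z (q0 x)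
        rw [map_smul, hq0]
        rfl }
  let i : B →ₗ[R] G := B.subtype.restrictScalars R
  have fG : Module.Flat (R ⧸ J) G := by
    rw [Module.Flat.flat_iff_torsion_eq_bot_of_isBezout,
      ← Submodule.isTorsionFree_iff_torsion_eq_bot]
    have : Module.IsTorsionFree (R ⧸ J) ((R ⧸ J) ⊗[R] F1) := inferInstance
    exact Function.Injective.moduleIsTorsionFree z hz (fun r m => map_smul z r m)
  have fB : Module.Flat (R ⧸ J) B := flat_sub J B
  have fR : Module.Flat (R ⧸ J) (LinearMap.range c0) := flat_sub J (LinearMap.range c0)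
  have JZ : JF J G := JF_of_flat J G
  have JB : JF J B := JF_of_flat J B
  have JR : JF J (LinearMap.range c0) := JF_of_flat J _
  have kJ : Killed J J := killed_J J h2
  -- Step 1
  have step1 : Orth i J := by
    refine step1_aux (A := J) d2 d1 d0 (z.restrictScalars R) i q (pmap J F1) (pmap J F0)
      (c0.restrictScalars R)
      ?_ (pmap_rTensor_injective J h2 F1) (pmap_surjective J F1)
      (pmap_rTensor_injective J h2 F0) ?_ ?_ ?_ ?_ ?_ ?_ ?_
    · refine pure_of_JF J (z.restrictScalars R) (c0.rangeRestrict.restrictScalars R) hz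
        ?_ (LinearMap.surjective_rangeRestrict c0) (killed_quot J _) JR kJ
      intro x
      rw [show (z.restrictScalars R : G → _) = z from rfl, ← hzk x]
      constructor
      · intro h
        exact congrArg Subtype.val h
      · intro h
        exact Subtype.ext h
    · rintro ⟨g, ⟨y, hy⟩⟩
      obtain ⟨z', rfl⟩ := pmap_surjective J F2 y
      refine ⟨z', ?_⟩
      apply Subtype.ext
      apply hz
      change z (q0 z') = z g
      rw [hq0, hy]
    · ext x
      have : c1 (pmap J F2 (d2 x)) = 0 := by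
        rw [hc1, show d1 (d2 x) = 0 from LinearMap.congr_fun h21 x, map_zero]
      apply hz
      change z (q0 (d2 x)) = z 0
      rw [hq0, this, map_zero]
    · ext x
      change z (q0 x) = _
      rw [hq0, hc1]
      rfl
    · ext x
      exact hc0 x
    · ext x
      exact (hzk _).2 ⟨x, rfl⟩
    · exact (LinearMap.rTensor_exact_iff_lTensor_exact J).2 HN1
    · exact (LinearMap.rTensor_exact_iff_lTensor_exact J).2 HN2
  -- Step 2, 3: the homology of `J ⊗ F`
  have orthK : Orth i K := orth_ker J JB JZ i k (LinearMap.lTensor J e) hk hke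
      (killed_tensor J kJ F0) (killed_tensor J kJ E) (orth_tensor i step1 F0)
      (orth_tensor i step1 E)
  have hcK : ∀ s : J ⊗[R] F1, ∃ y : K, k y = LinearMap.lTensor J d0 s := by
    intro s
    refine (hke _).1 ?_
    rw [← LinearMap.comp_apply, ← LinearMap.lTensor_comp, he0]
    simp
  choose dK0 hdK0 using hcK
  let dK : J ⊗[R] F1 →ₗ[R] K :=
    { toFun := dK0
      map_add' := by
        intro x y
        apply hk
        rw [map_add, hdK0, hdK0, hdK0, map_add]
      map_smul' := by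
        intro r x
        apply hk
        rw [map_smul, hdK0, hdK0, map_smul]
        rfl }
  have orthQ : Orth i (K ⧸ LinearMap.range dK) := by
    refine orth_coker i dK (LinearMap.range dK).mkQ ?_ (Submodule.mkQ_surjective _)
      (orth_tensor i step1 F1) orthK
    intro x
    rw [← LinearMap.mem_ker, Submodule.ker_mkQ]
    simp
  -- Step 4: compare with `V`
  let W : Submodule R (F1 × K) :=
    LinearMap.ker ((d0 ∘ₗ LinearMap.fst R F1 K) - (jmap J F0 ∘ₗ k ∘ₗ LinearMap.snd R F1 K))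
  have hW : ∀ (x : F1) (t : K), (x, t) ∈ W ↔ d0 x = jmap J F0 (k t) := by
    intro x t
    rw [LinearMap.mem_ker, LinearMap.sub_apply, sub_eq_zero]
    rfl
  have hWz : ∀ w : W, ∃ g : G, z g = pmap J F1 w.1.1 := by
    intro w
    refine (hzk _).1 ?_
    change c0 _ = 0
    rw [hc0]
    have h : d0 w.1.1 = jmap J F0 (k w.1.2) := (hW _ _).1 w.2
    rw [h]
    exact (exact_jmap_pmap J F0 _).2 ⟨_, rfl⟩
  choose w0 hw0 using hWz
  let a1 : W →ₗ[R] G :=
    { toFun := w0
      map_add' := by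
        intro x y
        apply hz
        rw [map_add, hw0, hw0, hw0]
        exact map_add (pmap J F1) _ _
      map_smul' := by
        intro r x
        apply hz
        rw [hw0]
        change _ = (z.restrictScalars R) (r • w0 x)
        rw [map_smul]
        change _ = r • z (w0 x)
        rw [hw0]
        exact map_smul (pmap J F1) _ _ }
  let a : W →ₗ[R] (G ⧸ B) := (B.mkQ.restrictScalars R) ∘ₗ a1
  let b : W →ₗ[R] (K ⧸ LinearMap.range dK) :=
    (LinearMap.range dK).mkQ ∘ₗ (LinearMap.snd R F1 K) ∘ₗ W.subtype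
  have ha : Function.Surjective a := by
    intro v
    obtain ⟨g, rfl⟩ := B.mkQ_surjective v
    obtain ⟨x, hx⟩ := pmap_surjective J F1 (z g)
    have hz0 : c0 (pmap J F1 x) = 0 := by
      rw [hx]
      exact (hzk _).2 ⟨g, rfl⟩
    rw [hc0] at hz0
    obtain ⟨t, ht⟩ := (exact_jmap_pmap J F0 _).1 hz0
    have htK : ∃ y : K, k y = t := by
      refine (hke _).1 ?_
      apply jmap_injective J E
      rw [jmap_natural, ht, map_zero, ← LinearMap.comp_apply, he0, LinearMap.zero_apply]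
    obtain ⟨y, rfl⟩ := htK
    have hxy : (x, y) ∈ W := (hW _ _).2 ht.symm
    refine ⟨⟨(x, y), hxy⟩, ?_⟩
    have : w0 ⟨(x, y), hxy⟩ = g := by
      apply hz
      rw [hw0, ← hx]
    change B.mkQ (w0 ⟨(x, y), hxy⟩) = B.mkQ g
    rw [this]
  have hb : Function.Surjective b := by
    intro v
    obtain ⟨t, rfl⟩ := (LinearMap.range dK).mkQ_surjective v
    obtain ⟨x, hx⟩ := hcond (k t) ((hke _).2 ⟨t, rfl⟩)
    exact ⟨⟨(x, t), (hW _ _).2 hx⟩, rfl⟩
  have hker : LinearMap.ker a = LinearMap.ker b := by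
    ext w
    obtain ⟨⟨x, t⟩, hw⟩ := w
    have hw' : d0 x = jmap J F0 (k t) := (hW _ _).1 hw
    have e1 : (⟨(x, t), hw⟩ : W) ∈ LinearMap.ker a ↔ pmap J F1 x ∈ LinearMap.range c1 := by
      rw [LinearMap.mem_ker]
      change B.mkQ (w0 ⟨(x, t), hw⟩) = 0 ↔ _
      rw [Submodule.mkQ_apply, Submodule.Quotient.mk_eq_zero]
      change z (w0 ⟨(x, t), hw⟩) ∈ LinearMap.range c1 ↔ _
      rw [hw0]
    have e2 : (⟨(x, t), hw⟩ : W) ∈ LinearMap.ker b ↔
        ∃ s : J ⊗[R] F1, LinearMap.lTensor J d0 s = k t := by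
      rw [LinearMap.mem_ker]
      change (LinearMap.range dK).mkQ t = 0 ↔ _
      rw [Submodule.mkQ_apply, Submodule.Quotient.mk_eq_zero]
      constructor
      · rintro ⟨s, hs⟩
        exact ⟨s, by rw [← hs]; exact (hdK0 s).symm⟩
      · rintro ⟨s, hs⟩
        exact ⟨s, hk (by rw [← hs]; exact hdK0 s)⟩
    rw [e1, e2]
    constructor
    · rintro ⟨y, hy⟩
      obtain ⟨y', rfl⟩ := pmap_surjective J F2 y
      rw [hc1] at hy
      have h3 : pmap J F1 (x - d1 y') = 0 := by rw [map_sub, ← hy, sub_self]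
      obtain ⟨s, hs⟩ := (exact_jmap_pmap J F1 _).1 h3
      refine ⟨s, jmap_injective J F0 ?_⟩
      rw [jmap_natural, hs, map_sub, ← hw', h10.apply_apply_eq_zero, sub_zero]
    · rintro ⟨s, hs⟩
      have h3 : d0 (x - jmap J F1 s) = 0 := by
        rw [map_sub, ← jmap_natural, hs, hw', sub_self]
      obtain ⟨y, hy⟩ := (h10 _).1 h3
      refine ⟨pmap J F2 y, ?_⟩
      rw [hc1, hy, map_sub]
      have : pmap J F1 (jmap J F1 s) = 0 := (exact_jmap_pmap J F1 _).2 ⟨_, rfl⟩
      rw [this, sub_zero]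
  have eV : (K ⧸ LinearMap.range dK) ≃ₗ[R] (G ⧸ B) :=
    (LinearMap.quotKerEquivOfSurjective b hb).symm ≪≫ₗ
      (Submodule.quotEquivOfEq _ _ hker.symm) ≪≫ₗ (LinearMap.quotKerEquivOfSurjective a ha)
  have orthV : Orth i (G ⧸ B) := orth_equiv i eV orthQ
  -- Step 5
  have hB : B = ⊤ := hF4 (R ⧸ J) G B (bij_transfer J B orthV)
  intro x
  constructor
  · intro hx
    obtain ⟨g, rfl⟩ := (hzk x).1 hx
    have : g ∈ B := by rw [hB]; trivial
    obtain ⟨y, hy⟩ := this
    exact ⟨y, hy⟩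
  · rintro ⟨y, rfl⟩
    rw [← LinearMap.comp_apply, ← LinearMap.lTensor_comp, h10']
    simp

theorem exists_ker {A B : Type} [AddCommGroup A] [Module R A] [AddCommGroup B] [Module R B]
    (g : A →ₗ[R] B) : ∃ (K : Type) (_ : AddCommGroup K) (_ : Module R K) (k : K →ₗ[R] A),
      Function.Injective k ∧ Function.Exact k g :=
  ⟨LinearMap.ker g, inferInstance, inferInstance, (LinearMap.ker g).subtype,
    Submodule.subtype_injective _, by intro x; simp⟩

theorem key (hF4 : S_F4) (h2 : ∀ a ∈ J, ∀ b ∈ J, a * b = 0)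
    [IsDomain (R ⧸ J)] [ValuationRing (R ⧸ J)] {F3 F2 F1 F0 E : Type}
    [AddCommGroup F3] [Module R F3] [AddCommGroup F2] [Module R F2]
    [AddCommGroup F1] [Module R F1] [AddCommGroup F0] [Module R F0]
    [AddCommGroup E] [Module R E] [Module.Flat R F1] [Module.Flat R F0] [Module.Flat R E]
    (d2 : F3 →ₗ[R] F2) (d1 : F2 →ₗ[R] F1) (d0 : F1 →ₗ[R] F0) (e : F0 →ₗ[R] E)
    (h21 : d1 ∘ₗ d2 = 0) (h10 : Function.Exact d1 d0)
    (hcond : ∀ t : J ⊗[R] F0, LinearMap.lTensor J e t = 0 → ∃ x, d0 x = jmap J F0 t)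
    (he0 : e ∘ₗ d0 = 0)
    (HN1 : Function.Exact (LinearMap.lTensor J d1) (LinearMap.lTensor J d0))
    (HN2 : Function.Exact (LinearMap.lTensor J d2) (LinearMap.lTensor J d1)) :
    Function.Exact (LinearMap.lTensor (R ⧸ J) d1) (LinearMap.lTensor (R ⧸ J) d0) := by
  obtain ⟨K, _, _, k, hk, hke⟩ := exists_ker (LinearMap.lTensor J e)
  exact key_aux (G := LinearMap.ker (LinearMap.baseChange (R ⧸ J) d0)) J hF4 h2 d2 d1 d0 e h21 h10
    hcond he0 HN1 HN2 (LinearMap.ker (LinearMap.baseChange (R ⧸ J) d0)).subtype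
    (Submodule.subtype_injective _) (by intro x; simp) k hk hke

end

end Pool.Agent.Y28.BG
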