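import Pool.Agent.Y28.BG.Key3
import Pool.Agent.Y925.BG.Tor
import Pool.Agent.Y547.BG.GV
import Pool.Agent.Y291.BG.F4

/-!
# Infinite weak global dimension for square-zero extensions of valuation domains
-/

set_option autoImplicit false

open TensorProduct CategoryTheory

namespace Pool.Agent.Y28.BG

section

variable {R : Type} [CommRing R] (J : Ideal R)

/-- Vanishing of the homology of `R/J ⊗ F` gives vanishing for `J ⊗ F` one degree lower. -/
theorem conn {F3 F2 F1 F0 : Type}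
    [AddCommGroup F3] [Module R F3] [AddCommGroup F2] [Module R F2]
    [AddCommGroup F1] [Module R F1] [AddCommGroup F0] [Module R F0]
    [Module.Flat R F1] [Module.Flat R F0]
    (d2 : F3 →ₗ[R] F2) (d1 : F2 →ₗ[R] F1) (d0 : F1 →ₗ[R] F0)
    (h21 : Function.Exact d2 d1) (h10 : Function.Exact d1 d0)
    (HD : Function.Exact (LinearMap.lTensor (R ⧸ J) d2) (LinearMap.lTensor (R ⧸ J) d1)) :
    Function.Exact (LinearMap.lTensor J d1) (LinearMap.lTensor J d0) := by
  intro t
  constructor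
  · intro ht
    have h1 : d0 (jmap J F1 t) = 0 := by rw [← jmap_natural, ht, map_zero]
    obtain ⟨y, hy⟩ := (h10 _).1 h1
    have h2 : LinearMap.lTensor (R ⧸ J) d1 (pmap J F2 y) = 0 := by
      rw [← pmap_natural, hy]
      exact (exact_jmap_pmap J F1 _).2 ⟨_, rfl⟩
    obtain ⟨w, hw⟩ := (HD _).1 h2
    obtain ⟨w', rfl⟩ := pmap_surjective J F3 w
    rw [← pmap_natural] at hw
    have h3 : pmap J F2 (y - d2 w') = 0 := by rw [map_sub, hw, sub_self]
    obtain ⟨s, hs⟩ := (exact_jmap_pmap J F2 _).1 h3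
    refine ⟨s, jmap_injective J F1 ?_⟩
    rw [jmap_natural, hs, map_sub, hy, h21.apply_apply_eq_zero, sub_zero]
  · rintro ⟨s, rfl⟩
    have h0 : d0 ∘ₗ d1 = 0 := by
      ext x
      exact h10.apply_apply_eq_zero x
    rw [← LinearMap.comp_apply, ← LinearMap.lTensor_comp, h0]
    simp

/-- The first homology does not vanish. -/
theorem bottom (h2 : ∀ a ∈ J, ∀ b ∈ J, a * b = 0) {F2 F1 F0 : Type}
    [AddCommGroup F2] [Module R F2]
    [AddCommGroup F1] [Module R F1] [AddCommGroup F0] [Module R F0]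
    [Module.Flat R F1] [Module.Flat R F0]
    (d1 : F2 →ₗ[R] F1) (d0 : F1 →ₗ[R] F0) (e : F0 →ₗ[R] (R ⧸ J)) (he : Function.Surjective e)
    (h10 : Function.Exact d1 d0) (h0 : Function.Exact d0 e)
    (HD : Function.Exact (LinearMap.lTensor (R ⧸ J) d1) (LinearMap.lTensor (R ⧸ J) d0)) :
    J = ⊥ := by
  rw [eq_bot_iff]
  intro a ha
  obtain ⟨x0, hx0⟩ := he 1
  have h1 : e (a • x0) = 0 := by
    rw [map_smul, hx0]
    have : a • (1 : R ⧸ J) = Ideal.Quotient.mk J a := by
      rw [Algebra.smul_def, mul_one]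
      rfl
    rw [this]
    exact Ideal.Quotient.eq_zero_iff_mem.2 ha
  obtain ⟨y, hy⟩ := (h0 _).1 h1
  have hj : jmap J F0 ((⟨a, ha⟩ : J) ⊗ₜ x0) = a • x0 := by simp
  have h3 : LinearMap.lTensor (R ⧸ J) d0 (pmap J F1 y) = 0 := by
    rw [← pmap_natural, hy, ← hj]
    exact (exact_jmap_pmap J F0 _).2 ⟨_, rfl⟩
  obtain ⟨w, hw⟩ := (HD _).1 h3
  obtain ⟨w', rfl⟩ := pmap_surjective J F2 w
  rw [← pmap_natural] at hw
  have h4 : pmap J F1 (y - d1 w') = 0 := by rw [map_sub, hw, sub_self]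
  obtain ⟨s, hs⟩ := (exact_jmap_pmap J F1 _).1 h4
  have h5 : LinearMap.lTensor J d0 s = (⟨a, ha⟩ : J) ⊗ₜ x0 := by
    apply jmap_injective J F0
    rw [jmap_natural, hs, map_sub, hy, h10.apply_apply_eq_zero, sub_zero, hj]
  have h6 : (⟨a, ha⟩ : J) ⊗ₜ[R] (1 : R ⧸ J) = 0 := by
    have h7 : LinearMap.lTensor J e ((⟨a, ha⟩ : J) ⊗ₜ[R] x0) = 0 := by
      have h8 : e ∘ₗ d0 = 0 := by
        ext x
        exact h0.apply_apply_eq_zero x
      rw [← h5, ← LinearMap.comp_apply, ← LinearMap.lTensor_comp, h8]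
      simp
    rw [LinearMap.lTensor_tmul, hx0] at h7
    exact h7
  have h7 : pmap J J ⟨a, ha⟩ = 0 := by
    have := congrArg (TensorProduct.comm R J (R ⧸ J)) h6
    rw [TensorProduct.comm_tmul, map_zero] at this
    exact this
  have h8 := pmap_injective_of_killed J (killed_J J h2) (h7.trans (map_zero _).symm)
  have := congrArg Subtype.val h8
  simpa using this

/-- The abstract form: no flat resolution of `R/J` has two consecutive vanishing homologies. -/
theorem abstract_main (hF4 : S_F4) (h2 : ∀ a ∈ J, ∀ b ∈ J, a * b = 0) (hJ : J ≠ ⊥)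
    [IsDomain (R ⧸ J)] [ValuationRing (R ⧸ J)] (F : ℕ → Type) [∀ n, AddCommGroup (F n)]
    [∀ n, Module R (F n)] [∀ n, Module.Flat R (F n)] (d : ∀ n, F (n + 1) →ₗ[R] F n)
    (e : F 0 →ₗ[R] (R ⧸ J)) (he : Function.Surjective e) (h0 : Function.Exact (d 0) e)
    (hd : ∀ n, Function.Exact (d (n + 1)) (d n)) (n : ℕ)
    (HD : Function.Exact (LinearMap.lTensor (R ⧸ J) (d (n + 1)))
      (LinearMap.lTensor (R ⧸ J) (d n)))
    (HN : Function.Exact (LinearMap.lTensor J (d (n + 1))) (LinearMap.lTensor J (d n))) :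
    False := by
  induction n with
  | zero => exact hJ (bottom J h2 (d 1) (d 0) e he (hd 0) h0 HD)
  | succ k ih =>
    have HN' : Function.Exact (LinearMap.lTensor J (d (k + 1))) (LinearMap.lTensor J (d k)) :=
      conn J (d (k + 2)) (d (k + 1)) (d k) (hd (k + 1)) (hd k) HD
    refine ih ?_ HN'
    have hz : ∀ m, d m ∘ₗ d (m + 1) = 0 := by
      intro m
      ext x
      exact (hd m).apply_apply_eq_zero x
    cases k with
    | zero =>
      refine key J hF4 h2 (E := PUnit) (d 2) (d 1) (d 0) 0 (hz 1) (hd 0) ?_ ?_ HN' HN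
      · intro t _
        refine (h0 _).1 ?_
        induction t using TensorProduct.induction_on with
        | zero => simp
        | tmul a x =>
          rw [jmap_tmul, map_smul]
          exact killed_quot J (R ⧸ J) a.1 a.2 _
        | add a b ha hb =>
          have kk : ∀ t : J ⊗[R] F 0, e (jmap J (F 0) t) = 0 := by
            intro t
            induction t using TensorProduct.induction_on with
            | zero => simp
            | tmul a x =>
              rw [jmap_tmul, map_smul]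
              exact killed_quot J (R ⧸ J) a.1 a.2 _
            | add a b ha hb => rw [map_add, map_add, ha, hb, add_zero]
          exact kk _
      · rfl
    | succ m =>
      refine key J hF4 h2 (d (m + 3)) (d (m + 2)) (d (m + 1)) (d m) (hz (m + 2)) (hd (m + 1))
        ?_ (hz m) HN' HN
      intro t ht
      refine (hd m _).1 ?_
      rw [← jmap_natural, ht, map_zero]

/-- The main theorem. -/
theorem main (h2 : ∀ a ∈ J, ∀ b ∈ J, a * b = 0) (hJ : J ≠ ⊥)
    [IsDomain (R ⧸ J)] [ValuationRing (R ⧸ J)] (n : ℕ) :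
    ¬ Limits.IsZero (((Tor (ModuleCat.{0} R) (n + 1)).obj (ModuleCat.of R (R ⧸ J))).obj
        (ModuleCat.of R (R ⧸ J))) ∨
      ¬ Limits.IsZero (((Tor (ModuleCat.{0} R) (n + 1)).obj (ModuleCat.of R J)).obj
        (ModuleCat.of R (R ⧸ J))) := by
  by_contra hcon
  push Not at hcon
  obtain ⟨hA, hB⟩ := hcon
  let P : ProjectiveResolution (ModuleCat.of R (R ⧸ J)) :=
    Classical.choice (HasProjectiveResolution.out (Z := ModuleCat.of R (R ⧸ J)))
  obtain ⟨hflat, hex, e, he, h0⟩ := Pool.Agent.Y925.BG.res R (R ⧸ J) P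
  have HD := Pool.Agent.Y925.BG.tor R (ModuleCat.of R (R ⧸ J)) _ P n hA
  have HN := Pool.Agent.Y925.BG.tor R (ModuleCat.of R J) _ P n hB
  exact abstract_main J Pool.Agent.Y291.BG.f4 h2 hJ (fun n => P.complex.X n)
    (fun n => (P.complex.d (n + 1) n).hom) e he h0 (fun n => hex n) n HD HN

end

/-- Valuation rings from divisibility modulo the ideal. -/
theorem valuationRing_quot {R : Type} [CommRing R] (J : Ideal R) (hJ : J.IsPrime)
    (h : ∀ a b : R, (∃ c, a * c - b ∈ J) ∨ (∃ c, b * c - a ∈ J)) :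
    ∃ _ : IsDomain (R ⧸ J), ValuationRing (R ⧸ J) := by
  have hD : IsDomain (R ⧸ J) := (Ideal.Quotient.isDomain_iff_prime J).2 hJ
  refine ⟨hD, { toPreValuationRing := ⟨?_⟩ }⟩
  intro x y
  obtain ⟨a, rfl⟩ := Ideal.Quotient.mk_surjective x
  obtain ⟨b, rfl⟩ := Ideal.Quotient.mk_surjective y
  rcases h a b with ⟨c, hc⟩ | ⟨c, hc⟩
  · refine ⟨Ideal.Quotient.mk J c, Or.inl ?_⟩
    rw [← map_mul]
    exact Ideal.Quotient.eq.2 hc
  · refine ⟨Ideal.Quotient.mk J c, Or.inr ?_⟩
    rw [← map_mul]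
    exact Ideal.Quotient.eq.2 hc

theorem gaussian (R : Type) [CommRing R] [IsLocalRing R] (hG : Gauss R) (hN : ¬ IsReduced R)
    (hN2 : nilradical R ^ 2 = ⊥) (n : ℕ) :
    ¬ Limits.IsZero (((Tor (ModuleCat.{0} R) (n + 1)).obj
        (ModuleCat.of R (R ⧸ nilradical R))).obj (ModuleCat.of R (R ⧸ nilradical R))) ∨
      ¬ Limits.IsZero (((Tor (ModuleCat.{0} R) (n + 1)).obj
        (ModuleCat.of R (nilradical R))).obj (ModuleCat.of R (R ⧸ nilradical R))) := by
  obtain ⟨hp, hv⟩ := Pool.Agent.Y547.BG.gv R hG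
  obtain ⟨_, _⟩ := valuationRing_quot _ hp hv
  refine main (nilradical R) ?_ ?_ n
  · intro a ha b hb
    have : a * b ∈ nilradical R ^ 2 := by
      rw [pow_two]
      exact Ideal.mul_mem_mul ha hb
    rw [hN2] at this
    simpa using this
  · intro h
    exact hN (nilradical_eq_bot_iff.1 h)

end Pool.Agent.Y28.BG
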